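import Pool.Agent.Helper6_RAM.Final3
import Pool.Agent.Helper6_RAM.Pub3

/-!
# A density theorem for the Hecke operators on the cusp forms over `𝔽_q(t)`, at every place

`G` is a split simply laced group (types `A`, `D`, `E₆`, `E₇`, `E₈` and sums), `N` a nonzero
polynomial, `f_j` an orthonormal family of cusp forms of level `N` on `X = G(F) / G(𝒪)`,
`F = 𝔽_q((1/t))`.  The places are `∞` and (the set of the places dividing) a nonconstant polynomial
`P`; then `N = M L` with `M` prime to `P` and `L` a divisor of a power of `P`, and the Hecke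
operators are those of the full Hecke algebra of level `L` at `P`.  The unramified case is `L = 1`.
-/

open scoped BigOperators

open Pool.Agent.DEN Pool.Agent.DEN.Pub

theorem Pool.Agent.Results.MP_eadad4_nt.HeckeDensityAllPlaces.result
    {r : ℕ} (hr : 0 < r) (C : Matrix (Fin r) (Fin r) ℤ) (hC : SimplyLaced C)
    (K : Type) [Field K] [Finite K] (N : Polynomial K) (hN : N ≠ 0)
    (n : ℕ) (f : Fin n → X C K → ℂ) (hcusp : ∀ j, Pub.IsCusp N (f j))
    (horth : ∀ i j, Pub.petersson N (f i) (f j) = if i = j then 1 else 0)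
    (R : ℕ) (hR : 0 < R) :
    -- the place `∞`
    (∀ κ : G C K → ℂ, Pub.HeckeInf κ R →
      (∀ lam : Fin n → ℂ, (∀ j, Pub.opInf κ (f j) = lam j • f j) → 2 * R < N.natDegree →
        ∑ j, ‖lam j‖ ^ 2 ≤ (N.natDegree : ℝ) ^ r * idx C N * Pub.normSq (Pub.maxK C K) κ) ∧
      (∀ τ σ : ℝ, 0 < τ → 0 ≤ σ → Pub.NormLE (Pub.maxK C K) κ τ →
        (∀ j, (Nat.card K : ℝ) ^ (σ * R) * τ ≤ Pub.pnorm N (Pub.opInf κ (f j))) →
        (n : ℝ) ≤ (N.natDegree : ℝ) ^ r * idx C N *
          (Nat.card K : ℝ) ^ (-(σ * ((N.natDegree : ℝ) - 2 * R))))) ∧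
    -- all places `P`, `N = M L` with `M` prime to `P` and `L` a divisor of a power of `P`
    (∀ P M L : Polynomial K, 0 < P.natDegree → IsCoprime P M → (∃ k : ℕ, L ∣ P ^ k) →
      N = M * L → ∀ κ : GP C K P → ℂ, Pub.HeckeLev P L κ R →
      (∀ lam : Fin n → ℂ, (∀ j, Pub.opLev P M L κ (f j) = lam j • f j) →
        2 * (R * P.natDegree) < M.natDegree →
        ∑ j, ‖lam j‖ ^ 2 ≤ (N.natDegree : ℝ) ^ r * idx C N * Pub.normSq (ΓL C K P L) κ) ∧
      (∀ τ σ : ℝ, 0 < τ → 0 ≤ σ → Pub.NormLE (ΓL C K P L) κ τ →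
        (∀ j, (Nat.card K : ℝ) ^ (σ * (R * P.natDegree : ℕ)) * τ ≤
          Pub.pnorm N (Pub.opLev P M L κ (f j))) →
        (n : ℝ) ≤ (N.natDegree : ℝ) ^ r * idx C N *
          (Nat.card K : ℝ) ^ (-(σ * ((M.natDegree : ℝ) - 2 * (R * P.natDegree : ℕ)))))) :=
  H6.finalB hr C hC K N hN n f hcusp horth R hR
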