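import Pool.Agent.Helper6_RAM.Final3
import Pool.Agent.Helper6_RAM.Pub3

/-!
# The Ramanujan bound for almost all cusp forms, at every place, ramified or not

`G` is a split simply laced group (types `A`, `D`, `E₆`, `E₇`, `E₈` and sums) over `F = 𝔽_q((1/t))`,
`X = G(F) / G(𝒪)`, `N` a nonzero polynomial divisible by the fourth power of an irreducible
polynomial `P₀`.  For the place `∞` and for every place `P` of `𝔽_q(t)` (`P` a nonconstant
polynomial; for `P` reducible, the set of the places dividing `P`), write `N = M L` with `M` prime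
to `P` and `L` a divisor of a power of `P`.  For every element `κ` of the full Hecke algebra of
level `L` at `P`, of radius `R` and of norm at most `τ` on `ℓ²(G(F_P) / K_P(L))`, the number of the
orthonormal cusp forms `f` of level `N` with `‖T_κ f‖ ≥ q ^ (σ R deg P) τ` is at most
`(deg N)^r q ^ (O(1) - σ deg M)` times the dimension of the space of the cusp forms of level `N`.
-/

open scoped BigOperators

open Pool.Agent.DEN Pool.Agent.DEN.Pub

theorem Pool.Agent.Results.MP_eadad4_nt.RamanujanAllPlaces.result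
    {r : ℕ} (hr : 0 < r) (C : Matrix (Fin r) (Fin r) ℤ) (hC : SimplyLaced C)
    (K : Type) [Field K] [Finite K] (P₀ N : Polynomial K) (hP₀ : Irreducible P₀) (hN : N ≠ 0)
    (hPN : P₀ ^ 4 ∣ N) :
    -- the cusp forms of level `N` are a finite dimensional space
    (∀ f : X C K → ℂ, f ∈ cuspSpace C N ↔ Pub.IsCusp N f) ∧
    Module.Finite ℂ (cuspSpace C N) ∧
    -- its dimension is at least a constant times the index of `Γ(N)`
    idx C N ≤ Nat.card K ^ ((2 * P₀.natDegree + 1) * dimG C ^ 2) * dimCusp C N ∧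
    -- the proportion of the cusp forms on which a Hecke operator is large
    ∀ (n : ℕ) (f : Fin n → X C K → ℂ), (∀ j, Pub.IsCusp N (f j)) →
      (∀ i j, Pub.petersson N (f i) (f j) = if i = j then 1 else 0) →
      ∀ R : ℕ, 0 < R → ∀ τ σ : ℝ, 0 < τ → 0 ≤ σ →
      -- the place `∞`
      (∀ κ : G C K → ℂ, Pub.HeckeInf κ R → Pub.NormLE (Pub.maxK C K) κ τ →
        (∀ j, (Nat.card K : ℝ) ^ (σ * R) * τ ≤ Pub.pnorm N (Pub.opInf κ (f j))) →
        (n : ℝ) ≤ (N.natDegree : ℝ) ^ r *
          (Nat.card K : ℝ) ^ ((2 * P₀.natDegree + 1) * dimG C ^ 2) *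
          (Nat.card K : ℝ) ^ (-(σ * ((N.natDegree : ℝ) - 2 * R))) * dimCusp C N) ∧
      -- all places `P`, `N = M L` with `M` prime to `P` and `L` a divisor of a power of `P`
      (∀ P M L : Polynomial K, 0 < P.natDegree → IsCoprime P M → (∃ k : ℕ, L ∣ P ^ k) →
        N = M * L → ∀ κ : GP C K P → ℂ, Pub.HeckeLev P L κ R →
        Pub.NormLE (ΓL C K P L) κ τ →
        (∀ j, (Nat.card K : ℝ) ^ (σ * (R * P.natDegree : ℕ)) * τ ≤
          Pub.pnorm N (Pub.opLev P M L κ (f j))) →
        (n : ℝ) ≤ (N.natDegree : ℝ) ^ r *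
          (Nat.card K : ℝ) ^ ((2 * P₀.natDegree + 1) * dimG C ^ 2) *
          (Nat.card K : ℝ) ^ (-(σ * ((M.natDegree : ℝ) - 2 * (R * P.natDegree : ℕ)))) *
          dimCusp C N) :=
  H6.finalA hr C hC K P₀ N hP₀ hN hPN
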